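import Mathlib

/-!
# Ternary hereditary subspaces of Hilbert modules are linking hereditary

`E` is a right Hilbert module over a (not necessarily unital) C⋆-algebra `B`, the inner product
being linear in the second variable; `E` need not be full.  A closed ternary subspace `F` of `E`
with `F ⟨E, F⟩ ⊆ F` is linking hereditary: the reduced linking algebra of `F` is a hereditary
subalgebra of the reduced linking algebra of `E`.
-/

set_option autoImplicit false

open scoped ComplexOrder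

namespace Pool.Agent.Work.MP_7e9539_an

/-- A right Hilbert module `E` over a (possibly non-unital) C⋆-algebra `B`: a right `B`-module
with a `B`-valued inner product, linear in the second variable, `B`-linear in the sense
`⟨x, y b⟩ = ⟨x, y⟩ b`, hermitian and positive, whose norm `‖x‖ = ‖⟨x, x⟩‖ ^ (1/2)` is complete.
No fullness is assumed. -/
class RightHilbertModule (B : Type*) [NonUnitalCStarAlgebra B] [PartialOrder B]
    [StarOrderedRing B] (E : Type*) [NormedAddCommGroup E] [NormedSpace ℂ E]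
    [CompleteSpace E] where
  /-- the right action `x, b ↦ x b` -/
  act : E → B → E
  /-- the inner product `x, y ↦ ⟨x, y⟩` -/
  ip : E → E → B
  add_act : ∀ (x y : E) (b : B), act (x + y) b = act x b + act y b
  act_add : ∀ (x : E) (b c : B), act x (b + c) = act x b + act x c
  smul_act : ∀ (t : ℂ) (x : E) (b : B), act (t • x) b = t • act x b
  act_smul : ∀ (t : ℂ) (x : E) (b : B), act x (t • b) = t • act x b
  act_mul : ∀ (x : E) (b c : B), act x (b * c) = act (act x b) c
  ip_add_right : ∀ x y z : E, ip x (y + z) = ip x y + ip x z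
  ip_smul_right : ∀ (t : ℂ) (x y : E), ip x (t • y) = t • ip x y
  ip_act_right : ∀ (x y : E) (b : B), ip x (act y b) = ip x y * b
  star_ip : ∀ x y : E, star (ip x y) = ip y x
  ip_self_nonneg : ∀ x : E, 0 ≤ ip x x
  norm_sq_eq : ∀ x : E, ‖x‖ ^ 2 = ‖ip x x‖

open RightHilbertModule

section defs

variable (B : Type*) [NonUnitalCStarAlgebra B] [PartialOrder B] [StarOrderedRing B]
variable {E : Type*} [NormedAddCommGroup E] [NormedSpace ℂ E] [CompleteSpace E]
variable [RightHilbertModule B E]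

/-- `F` is a closed ternary subspace of `E`: a norm-closed linear subspace with
`x ⟨y, z⟩ ∈ F` for all `x, y, z ∈ F`. -/
def IsClosedTernary (F : Submodule ℂ E) : Prop :=
  IsClosed (F : Set E) ∧ ∀ x ∈ F, ∀ y ∈ F, ∀ z ∈ F, act x (ip y z : B) ∈ F

/-- `F` is ternary hereditary in `E`: `x ⟨y, z⟩ ∈ F` for all `x, z ∈ F` and `y ∈ E`. -/
def IsTernaryHereditary (F : Submodule ℂ E) : Prop :=
  ∀ x ∈ F, ∀ y : E, ∀ z ∈ F, act x (ip y z : B) ∈ F

/-- `B_F`, the closed linear span in `B` of the inner products `⟨x, y⟩` with `x, y ∈ F`. -/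
def rangeIdeal (F : Submodule ℂ E) : Submodule ℂ B :=
  (Submodule.span ℂ {b : B | ∃ x ∈ F, ∃ y ∈ F, b = ip x y}).topologicalClosure

end defs

section rankOne

variable {B : Type*} [NonUnitalCStarAlgebra B] [PartialOrder B] [StarOrderedRing B]
variable {E : Type*} [NormedAddCommGroup E] [NormedSpace ℂ E] [CompleteSpace E]
variable [RightHilbertModule B E]

lemma ip_add_left (x y z : E) : (ip (x + y) z : B) = ip x z + ip y z := by
  rw [← star_ip z (x + y), ip_add_right, star_add, star_ip, star_ip]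

lemma ip_act_left (x y : E) (b : B) : (ip (act x b) y : B) = star b * ip x y := by
  rw [← star_ip y (act x b), ip_act_right, star_mul, star_ip]

lemma ip_smul_left (t : ℂ) (x y : E) : (ip (t • x) y : B) = star t • ip x y := by
  rw [← star_ip y (t • x), ip_smul_right, star_smul, star_ip]

lemma ip_zero_right (x : E) : (ip x 0 : B) = 0 := by
  have := ip_smul_right (B := B) 0 x 0
  simpa using this

lemma ip_zero_left (x : E) : (ip 0 x : B) = 0 := by
  rw [← star_ip x 0, ip_zero_right, star_zero]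

lemma ip_neg_right (x y : E) : (ip x (-y) : B) = - ip x y := by
  have := ip_smul_right (B := B) (-1) x y
  simpa using this

lemma ip_neg_left (x y : E) : (ip (-x) y : B) = - ip x y := by
  have := ip_smul_left (B := B) (-1) x y
  simpa using this

lemma ip_sub_right (x y z : E) : (ip x (y - z) : B) = ip x y - ip x z := by
  rw [sub_eq_add_neg, ip_add_right, ip_neg_right, sub_eq_add_neg]

lemma ip_sub_left (x y z : E) : (ip (x - y) z : B) = ip x z - ip y z := by
  rw [sub_eq_add_neg, ip_add_left, ip_neg_left, sub_eq_add_neg]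

lemma eq_zero_of_ip_self {x : E} (h : (ip x x : B) = 0) : x = 0 := by
  have := norm_sq_eq (B := B) x
  rw [h, norm_zero] at this
  simpa using this

/-- Cauchy–Schwarz -/
lemma norm_ip_le (x y : E) : ‖(ip x y : B)‖ ≤ ‖x‖ * ‖y‖ := by
  rcases eq_or_ne x 0 with rfl | hx
  · simp [ip_zero_left]
  have hx' : 0 < ‖x‖ := norm_pos_iff.mpr hx
  have hx2 : (0 : ℝ) < ‖x‖ ^ 2 := by positivity
  -- key inequality
  have key : (ip y x : B) * ip x y ≤ (‖x‖ ^ 2 : ℝ) • (ip y y : B) := by
    have h1 : ∀ a : B, (0 : B) ≤ (‖x‖ ^ 2 : ℝ) • (star a * a) - (star a * ip x ((‖x‖ ^ 2 : ℝ) • y))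
        - (ip ((‖x‖ ^ 2 : ℝ) • y) x * a) + ip ((‖x‖ ^ 2 : ℝ) • y) ((‖x‖ ^ 2 : ℝ) • y) := by
      intro a
      calc (0 : B) ≤ ip (act x a - (‖x‖ ^ 2 : ℝ) • y) (act x a - (‖x‖ ^ 2 : ℝ) • y) :=
            ip_self_nonneg _
        _ = star a * ip x x * a - (star a * ip x ((‖x‖ ^ 2 : ℝ) • y))
          - (ip ((‖x‖ ^ 2 : ℝ) • y) x * a) + ip ((‖x‖ ^ 2 : ℝ) • y) ((‖x‖ ^ 2 : ℝ) • y) := by
            rw [ip_sub_right, ip_sub_left, ip_sub_left, ip_act_left, ip_act_left, ip_act_right,
              ip_act_right, mul_assoc]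
            abel
        _ ≤ _ := by
            gcongr
            calc _ ≤ ‖(ip x x : B)‖ • (star a * a) :=
                  CStarAlgebra.star_left_conjugate_le_norm_smul (hb := star_ip x x)
              _ = _ := by rw [norm_sq_eq (B := B)]
    have h2 := h1 (ip x y)
    have e1 : (ip x ((‖x‖ ^ 2 : ℝ) • y) : B) = (‖x‖ ^ 2 : ℝ) • ip x y := by
      have := ip_smul_right (B := B) ((‖x‖ ^ 2 : ℝ) : ℂ) x y
      simpa only [Complex.coe_smul] using this
    have e2 : (ip ((‖x‖ ^ 2 : ℝ) • y) x : B) = (‖x‖ ^ 2 : ℝ) • ip y x := by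
      rw [← star_ip x, e1, star_smul, star_ip]; simp
    have e3 : (ip ((‖x‖ ^ 2 : ℝ) • y) ((‖x‖ ^ 2 : ℝ) • y) : B)
        = (‖x‖ ^ 2 : ℝ) • (‖x‖ ^ 2 : ℝ) • ip y y := by
      have h3 := ip_smul_right (B := B) ((‖x‖ ^ 2 : ℝ) : ℂ) ((‖x‖ ^ 2 : ℝ) • y) y
      have h4 := ip_smul_left (B := B) ((‖x‖ ^ 2 : ℝ) : ℂ) y y
      simp only [Complex.coe_smul, Complex.star_def, Complex.conj_ofReal] at h3 h4
      rw [h3, h4]
    rw [e1, e2, e3, star_ip, mul_smul_comm, smul_mul_assoc] at h2
    have h5 : (0 : B) ≤ (‖x‖ ^ 2 : ℝ) • ((‖x‖ ^ 2 : ℝ) • ip y y - ip y x * ip x y) := by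
      rw [smul_sub]
      convert h2 using 1
      abel
    have h6 := smul_nonneg (inv_nonneg.mpr hx2.le) h5
    rw [smul_smul, inv_mul_cancel₀ hx2.ne', one_smul] at h6
    exact sub_nonneg.mp h6
  have h7 : ‖(ip x y : B)‖ ^ 2 ≤ (‖x‖ * ‖y‖) ^ 2 := by
    calc ‖(ip x y : B)‖ ^ 2 = ‖(ip y x : B) * ip x y‖ := by
          rw [← star_ip x y, CStarRing.norm_star_mul_self, pow_two]
      _ ≤ ‖(‖x‖ ^ 2 : ℝ) • (ip y y : B)‖ := by
          refine CStarAlgebra.norm_le_norm_of_nonneg_of_le ?_ key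
          rw [← star_ip x y]
          exact star_mul_self_nonneg _
      _ = (‖x‖ * ‖y‖) ^ 2 := by
          rw [norm_smul, ← norm_sq_eq, mul_pow]; simp
  exact (pow_le_pow_iff_left₀ (norm_nonneg _) (by positivity) (by norm_num)).mp h7

lemma norm_act_le (x : E) (b : B) : ‖(act x b : E)‖ ≤ ‖x‖ * ‖b‖ := by
  have h : ‖(act x b : E)‖ ^ 2 ≤ (‖x‖ * ‖b‖) ^ 2 := by
    rw [norm_sq_eq (B := B), ip_act_right, ip_act_left, mul_pow, norm_sq_eq (B := B) x]
    calc _ ≤ ‖star b‖ * ‖(ip x x : B)‖ * ‖b‖ :=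
          (norm_mul_le _ _).trans (by gcongr; exact norm_mul_le _ _)
      _ = _ := by rw [norm_star]; ring
  exact (pow_le_pow_iff_left₀ (norm_nonneg _) (by positivity) (by norm_num)).mp h

/-- The rank one operator `x y⋆ : z ↦ x ⟨y, z⟩` on `E`. -/
noncomputable def rankOne (B : Type*) [NonUnitalCStarAlgebra B] [PartialOrder B]
    [StarOrderedRing B] {E : Type*} [NormedAddCommGroup E] [NormedSpace ℂ E] [CompleteSpace E]
    [RightHilbertModule B E] (x y : E) : E →L[ℂ] E :=
  LinearMap.mkContinuous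
    { toFun := fun z => act x (ip y z : B)
      map_add' := fun z w => by rw [ip_add_right, act_add]
      map_smul' := fun t z => by rw [ip_smul_right, act_smul, RingHom.id_apply] }
    (‖x‖ * ‖y‖) (fun z => by
      refine (norm_act_le x (ip y z : B)).trans ?_
      rw [mul_assoc]
      gcongr
      exact norm_ip_le y z)

@[simp] lemma rankOne_apply (x y z : E) : rankOne B x y z = act x (ip y z : B) := rfl

end rankOne

section defs2

variable (B : Type*) [NonUnitalCStarAlgebra B] [PartialOrder B] [StarOrderedRing B]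
variable {E : Type*} [NormedAddCommGroup E] [NormedSpace ℂ E] [CompleteSpace E]
variable [RightHilbertModule B E]

/-- `𝒦(F)`, the closed linear span, inside the bounded operators on `E`, of the rank one
operators `x y⋆` with `x, y ∈ F`. -/
noncomputable def compacts (F : Submodule ℂ E) : Submodule ℂ (E →L[ℂ] E) :=
  (Submodule.span ℂ {k : E →L[ℂ] E | ∃ x ∈ F, ∃ y ∈ F, k = rankOne B x y}).topologicalClosure

variable (E) in
/-- The underlying space `B_E × E` of the Hilbert module `B_E ⊕ E`. -/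
def LinkSpace : Type _ := {c : B // c ∈ rangeIdeal B (⊤ : Submodule ℂ E)} × E

/-- `S` is the operator on `B_E ⊕ E` with matrix `(b, x⋆; y, k)`, that is
`S (c, z) = (b c + ⟨x, z⟩, y c + k z)`. -/
def IsMatrix (b : B) (x y : E) (k : E →L[ℂ] E) (S : LinkSpace B E → LinkSpace B E) : Prop :=
  ∀ p : LinkSpace B E, ((S p).1 : B) = b * (p.1 : B) + ip x p.2 ∧ (S p).2 = act y (p.1 : B) + k p.2

/-- The reduced linking algebra `𝓛_F` of `F`, as a set of operators on `B_E ⊕ E`: the operators
with a matrix `(b, x⋆; y, k)`, where `b ∈ B_F`, `x, y ∈ F` and `k ∈ 𝒦(F)`. -/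
def linkingAlgebra (F : Submodule ℂ E) : Set (LinkSpace B E → LinkSpace B E) :=
  {S | ∃ b ∈ rangeIdeal B F, ∃ x ∈ F, ∃ y ∈ F, ∃ k ∈ compacts B F, IsMatrix B b x y k S}

/-- `F` is linking hereditary in `E`: with `𝓛_F` and `𝓛_E` the reduced linking algebras
(the product being the composition of operators on `B_E ⊕ E`), `𝓛_F 𝓛_E 𝓛_F ⊆ 𝓛_F`. -/
def IsLinkingHereditary (F : Submodule ℂ E) : Prop :=
  ∀ S ∈ linkingAlgebra B F, ∀ R ∈ linkingAlgebra B (⊤ : Submodule ℂ E),
    ∀ T ∈ linkingAlgebra B F, S ∘ R ∘ T ∈ linkingAlgebra B F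

end defs2

end Pool.Agent.Work.MP_7e9539_an
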