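import Pool.Agent.Work.MP_7e9539_an.Defs

set_option autoImplicit false

namespace Pool.Agent.Work.MP_7e9539_an

open RightHilbertModule

section proofs

variable {B : Type*} [NonUnitalCStarAlgebra B] [PartialOrder B] [StarOrderedRing B]
variable {E : Type*} [NormedAddCommGroup E] [NormedSpace ℂ E] [CompleteSpace E]
variable [RightHilbertModule B E]

/-- `b ↦ x b` as a bounded operator -/
noncomputable def actL (x : E) : B →L[ℂ] E :=
  LinearMap.mkContinuous
    { toFun := fun b => act x b
      map_add' := fun b c => act_add x b c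
      map_smul' := fun t b => by rw [act_smul, RingHom.id_apply] }
    ‖x‖ (fun b => norm_act_le x b)

/-- `x ↦ x b` as a bounded operator -/
noncomputable def ractL (b : B) : E →L[ℂ] E :=
  LinearMap.mkContinuous
    { toFun := fun x => act x b
      map_add' := fun x y => add_act x y b
      map_smul' := fun t x => by rw [smul_act, RingHom.id_apply] }
    ‖b‖ (fun x => by rw [mul_comm]; exact norm_act_le x b)

/-- `z ↦ ⟨x, z⟩` as a bounded operator -/
noncomputable def ipL (x : E) : E →L[ℂ] B :=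
  LinearMap.mkContinuous
    { toFun := fun z => ip x z
      map_add' := fun z w => ip_add_right x z w
      map_smul' := fun t z => by rw [ip_smul_right, RingHom.id_apply] }
    ‖x‖ (fun z => norm_ip_le x z)

@[simp] lemma actL_apply (x : E) (b : B) : actL x b = act x b := rfl
@[simp] lemma ractL_apply (x : E) (b : B) : ractL b x = act x b := rfl
@[simp] lemma ipL_apply (x z : E) : (ipL x z : B) = ip x z := rfl

@[fun_prop] lemma continuous_act_right (x : E) : Continuous (fun b : B => act x b) :=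
  (actL x).continuous

@[fun_prop] lemma continuous_act_left (b : B) : Continuous (fun x : E => act x b) :=
  (ractL b).continuous

@[fun_prop] lemma continuous_ip_right (x : E) : Continuous (fun z : E => (ip x z : B)) :=
  (ipL x).continuous

@[fun_prop] lemma continuous_ip_left (z : E) : Continuous (fun x : E => (ip x z : B)) := by
  have : (fun x : E => (ip x z : B)) = fun x => star (ip z x : B) := by
    funext x; rw [star_ip]
  rw [this]
  exact (continuous_ip_right z).star

lemma act_zero_left (b : B) : (act (0 : E) b) = 0 := map_zero (ractL b)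
lemma act_zero_right (x : E) : act x (0 : B) = 0 := map_zero (actL x)

variable (B) in
lemma rangeIdeal_ind {F : Submodule ℂ E} (P : B → Prop) (hcl : IsClosed {b | P b}) (h0 : P 0)
    (hadd : ∀ a b, P a → P b → P (a + b)) (hsmul : ∀ (t : ℂ) a, P a → P (t • a))
    (h : ∀ x ∈ F, ∀ y ∈ F, P (ip x y)) : ∀ b ∈ rangeIdeal B F, P b := by
  let Q : Submodule ℂ B :=
    { carrier := {b | P b}
      add_mem' := fun ha hb => hadd _ _ ha hb
      zero_mem' := h0
      smul_mem' := fun t _ ha => hsmul t _ ha }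
  have : rangeIdeal B F ≤ Q := by
    refine Submodule.topologicalClosure_minimal _ ?_ hcl
    rw [Submodule.span_le]
    rintro _ ⟨x, hx, y, hy, rfl⟩
    exact h x hx y hy
  exact fun b hb => this hb

lemma compacts_ind {F : Submodule ℂ E} (P : (E →L[ℂ] E) → Prop) (hcl : IsClosed {k | P k})
    (h0 : P 0) (hadd : ∀ a b, P a → P b → P (a + b)) (hsmul : ∀ (t : ℂ) a, P a → P (t • a))
    (h : ∀ x ∈ F, ∀ y ∈ F, P (rankOne B x y)) : ∀ k ∈ compacts B F, P k := by
  let Q : Submodule ℂ (E →L[ℂ] E) :=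
    { carrier := {k | P k}
      add_mem' := fun ha hb => hadd _ _ ha hb
      zero_mem' := h0
      smul_mem' := fun t _ ha => hsmul t _ ha }
  have : compacts B F ≤ Q := by
    refine Submodule.topologicalClosure_minimal _ ?_ hcl
    rw [Submodule.span_le]
    rintro _ ⟨x, hx, y, hy, rfl⟩
    exact h x hx y hy
  exact fun b hb => this hb

lemma ip_mem_rangeIdeal {F : Submodule ℂ E} {x y : E} (hx : x ∈ F) (hy : y ∈ F) :
    (ip x y : B) ∈ rangeIdeal B F :=
  Submodule.le_topologicalClosure _ (Submodule.subset_span ⟨x, hx, y, hy, rfl⟩)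

lemma rankOne_mem_compacts {F : Submodule ℂ E} {x y : E} (hx : x ∈ F) (hy : y ∈ F) :
    rankOne B x y ∈ compacts B F :=
  Submodule.le_topologicalClosure _ (Submodule.subset_span ⟨x, hx, y, hy, rfl⟩)

lemma isClosed_rangeIdeal (F : Submodule ℂ E) : IsClosed (rangeIdeal B F : Set B) :=
  Submodule.isClosed_topologicalClosure _

lemma isClosed_compacts (F : Submodule ℂ E) : IsClosed (compacts B F : Set (E →L[ℂ] E)) :=
  Submodule.isClosed_topologicalClosure _

lemma star_mem_rangeIdeal {F : Submodule ℂ E} :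
    ∀ b ∈ rangeIdeal B F, star b ∈ rangeIdeal B F := by
  refine rangeIdeal_ind B (fun b => star b ∈ rangeIdeal B F) ?_ ?_ ?_ ?_ ?_
  · exact (isClosed_rangeIdeal F).preimage continuous_star
  · simp
  · intro a b ha hb; rw [star_add]; exact add_mem ha hb
  · intro t a ha; rw [star_smul]; exact Submodule.smul_mem _ _ ha
  · intro x hx y hy; rw [star_ip]; exact ip_mem_rangeIdeal hy hx

lemma act_mem_of_ternary {F : Submodule ℂ E} (hF : IsClosedTernary B F) {x : E} (hx : x ∈ F) :
    ∀ b ∈ rangeIdeal B F, act x b ∈ F := by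
  refine rangeIdeal_ind B (fun b => act x b ∈ F) ?_ ?_ ?_ ?_ ?_
  · exact hF.1.preimage (continuous_act_right x)
  · rw [act_zero_right]; exact zero_mem F
  · intro a b ha hb; rw [act_add]; exact add_mem ha hb
  · intro t a ha; rw [act_smul]; exact Submodule.smul_mem _ _ ha
  · intro y hy z hz; exact hF.2 x hx y hy z hz

lemma mul_mem_rangeIdeal {F : Submodule ℂ E} (hF : IsClosedTernary B F) {c : B}
    (hc : c ∈ rangeIdeal B F) : ∀ b ∈ rangeIdeal B F, b * c ∈ rangeIdeal B F := by
  refine rangeIdeal_ind B (fun b => b * c ∈ rangeIdeal B F) ?_ ?_ ?_ ?_ ?_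
  · exact (isClosed_rangeIdeal F).preimage (continuous_mul_const c)
  · simp
  · intro a b ha hb; rw [add_mul]; exact add_mem ha hb
  · intro t a ha; rw [smul_mul_assoc]; exact Submodule.smul_mem _ _ ha
  · intro x hx y hy
    rw [← ip_act_right]
    exact ip_mem_rangeIdeal hx (act_mem_of_ternary hF hy c hc)

/-- The algebra `B_F` as a non-unital star subalgebra. -/
def rangeAlg {F : Submodule ℂ E} (hF : IsClosedTernary B F) : NonUnitalStarSubalgebra ℂ B where
  carrier := rangeIdeal B F
  add_mem' := fun ha hb => add_mem ha hb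
  zero_mem' := zero_mem _
  mul_mem' := fun ha hb => mul_mem_rangeIdeal hF hb _ ha
  smul_mem' := fun t _ ha => Submodule.smul_mem _ t ha
  star_mem' := fun ha => star_mem_rangeIdeal _ ha

/-- `x ∈ F` is a limit of `x e` with `e ∈ B_F`. -/
lemma exists_approx {F : Submodule ℂ E} (hF : IsClosedTernary B F) {x : E} (hx : x ∈ F)
    {ε : ℝ} (hε : 0 < ε) : ∃ e ∈ rangeIdeal B F, ‖x - act x e‖ ≤ ε := by
  set a : B := ip x x with ha
  have ha0 : 0 ≤ a := ip_self_nonneg x
  have hasa : IsSelfAdjoint a := ha0.isSelfAdjoint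
  set δ : ℝ := ε ^ 2 with hδ
  have hδ0 : 0 < δ := by positivity
  let f : ℝ → ℝ := fun t => |t| / (|t| + δ)
  have hfc : Continuous f := by
    refine Continuous.div (by fun_prop) (by fun_prop) (fun t => ?_)
    positivity
  have hf0 : f 0 = 0 := by simp [f]
  let e : B := cfcₙ f a
  have hes : star e = e := (IsSelfAdjoint.cfcₙ (f := f) (a := a))
  have he : e ∈ rangeIdeal B F := by
    have hcl : IsClosed ((rangeAlg hF : NonUnitalStarSubalgebra ℂ B) : Set B) :=
      isClosed_rangeIdeal F
    have := cfcₙ_mem (𝕜' := ℂ) (s := rangeAlg hF) (hs := hcl) f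
      (a := a) (show a ∈ rangeAlg hF from ip_mem_rangeIdeal hx hx)
    exact this
  refine ⟨e, he, ?_⟩
  have c1 : ContinuousOn f (quasispectrum ℝ a) := hfc.continuousOn
  have c0 : ContinuousOn (fun t : ℝ => t) (quasispectrum ℝ a) := continuous_id.continuousOn
  have c2 : ContinuousOn (fun t : ℝ => t * f t) (quasispectrum ℝ a) := c0.mul c1
  have c3 : ContinuousOn (fun t : ℝ => f t * t) (quasispectrum ℝ a) := c1.mul c0
  have c4 : ContinuousOn (fun t : ℝ => t - t * f t) (quasispectrum ℝ a) := c0.sub c2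
  have c5 : ContinuousOn (fun t : ℝ => t - t * f t - f t * t) (quasispectrum ℝ a) := c4.sub c3
  have c6 : ContinuousOn (fun t : ℝ => f t * t * f t) (quasispectrum ℝ a) := c3.mul c1
  have h1 : (ip (x - act x e) (x - act x e) : B)
      = cfcₙ (fun t : ℝ => t - t * f t - f t * t + f t * t * f t) a := by
    have e1 : cfcₙ (fun t : ℝ => t - t * f t - f t * t + f t * t * f t) a
        = a - a * e - e * a + e * a * e := by
      rw [cfcₙ_add (fun t => t - t * f t - f t * t) (fun t => f t * t * f t) a (hf := c5)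
          (hg := c6) (hf0 := by simp) (hg0 := by simp),
        cfcₙ_sub (fun t => t - t * f t) (fun t => f t * t) a c4 (by simp) c3 (by simp),
        cfcₙ_sub (fun t => t) (fun t => t * f t) a c0 rfl c2 (by simp),
        cfcₙ_mul (fun t => f t * t) f a c3 (by simp) c1 hf0,
        cfcₙ_mul (fun t => t) f a c0 rfl c1 hf0,
        cfcₙ_mul f (fun t => t) a c1 hf0 c0 rfl,
        cfcₙ_id' ℝ a]
    rw [e1, ip_sub_right, ip_sub_left, ip_sub_left, ip_act_right, ip_act_left, ip_act_right,
      ip_act_left, hes, ← ha]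
    simp only [mul_assoc]
    abel
  have h2 : ‖(ip (x - act x e) (x - act x e) : B)‖ ≤ δ := by
    rw [h1]
    refine norm_cfcₙ_le ?_
    intro t ht
    have ht0 : 0 ≤ t := quasispectrum_nonneg_of_nonneg a ha0 t ht
    have : t - t * f t - f t * t + f t * t * f t = δ * (t * δ / (t + δ) ^ 2) := by
      have htδ : t + δ ≠ 0 := by positivity
      simp only [f, abs_of_nonneg ht0]
      field_simp
      ring
    rw [this, Real.norm_of_nonneg (by positivity)]
    have h3 : t * δ / (t + δ) ^ 2 ≤ 1 := by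
      rw [div_le_one (by positivity)]
      nlinarith
    nlinarith
  have h4 : ‖x - act x e‖ ^ 2 ≤ ε ^ 2 := by
    rw [norm_sq_eq (B := B)]; exact h2
  exact (pow_le_pow_iff_left₀ (norm_nonneg _) hε.le (by norm_num)).mp h4

/-- A closed set containing `x e` for all `e ∈ B_F` contains `x`. -/
lemma mem_of_forall_act {F : Submodule ℂ E} (hF : IsClosedTernary B F) {x : E} (hx : x ∈ F)
    {P : E → Prop} (hP : IsClosed {y | P y}) (h : ∀ e ∈ rangeIdeal B F, P (act x e)) : P x := by
  have : x ∈ closure {y | P y} := by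
    rw [Metric.mem_closure_iff]
    intro ε hε
    obtain ⟨e, he, hxe⟩ := exists_approx hF hx (half_pos hε)
    refine ⟨act x e, h e he, ?_⟩
    rw [dist_eq_norm]
    linarith
  rw [hP.closure_eq] at this
  exact this

/-- `B_F B B_F ⊆ B_F`. -/
lemma mul_mul_mem {F : Submodule ℂ E} (hT : IsTernaryHereditary B F) {a b c : B}
    (ha : a ∈ rangeIdeal B F) (hc : c ∈ rangeIdeal B F) : a * b * c ∈ rangeIdeal B F := by
  suffices h : ∀ a ∈ rangeIdeal B F, a * b * c ∈ rangeIdeal B F from h a ha
  refine rangeIdeal_ind B (fun a => a * b * c ∈ rangeIdeal B F) ?_ ?_ ?_ ?_ ?_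
  · exact (isClosed_rangeIdeal F).preimage (by fun_prop)
  · simp
  · intro a a' ha hb; rw [add_mul, add_mul]; exact add_mem ha hb
  · intro t a ha; rw [smul_mul_assoc, smul_mul_assoc]; exact Submodule.smul_mem _ _ ha
  intro u hu v hv
  suffices h : ∀ c ∈ rangeIdeal B F, ip u v * b * c ∈ rangeIdeal B F from h c hc
  refine rangeIdeal_ind B (fun c => ip u v * b * c ∈ rangeIdeal B F) ?_ ?_ ?_ ?_ ?_
  · exact (isClosed_rangeIdeal F).preimage (by fun_prop)
  · simp
  · intro a a' ha hb; rw [mul_add]; exact add_mem ha hb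
  · intro t a ha; rw [mul_smul_comm]; exact Submodule.smul_mem _ _ ha
  intro g hg h hh
  have e : (ip u v * b * ip g h : B) = ip (act g (ip (act v b) u : B)) h := by
    rw [ip_act_left, star_ip, ip_act_right]
  rw [e]
  exact ip_mem_rangeIdeal (hT g hg _ u hu) hh

/-- `F B B_F ⊆ F`. -/
lemma act_mul_mem {F : Submodule ℂ E} (hF : IsClosedTernary B F)
    (hT : IsTernaryHereditary B F) {x : E} (hx : x ∈ F) (b : B) {a : B}
    (ha : a ∈ rangeIdeal B F) : act x (b * a) ∈ F := by
  refine mem_of_forall_act hF hx (P := fun y => act y (b * a) ∈ F) ?_ ?_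
  · exact hF.1.preimage (continuous_act_left _)
  · intro e he
    rw [← act_mul, ← mul_assoc]
    exact act_mem_of_ternary hF hx _ (mul_mul_mem hT he ha)

lemma norm_rankOne_le (x y : E) : ‖rankOne B x y‖ ≤ ‖x‖ * ‖y‖ :=
  LinearMap.mkContinuous_norm_le _ (by positivity) _

/-- `y ↦ y x⋆` as a bounded operator -/
noncomputable def rankOneL (x : E) : E →L[ℂ] (E →L[ℂ] E) :=
  LinearMap.mkContinuous
    { toFun := fun y => rankOne B y x
      map_add' := fun y z => by ext w; simp [add_act]
      map_smul' := fun t z => by ext w; simp [smul_act] }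
    ‖x‖ (fun y => by
      rw [mul_comm]
      exact norm_rankOne_le y x)

lemma continuous_rankOne_left (x : E) : Continuous (fun y : E => rankOne B y x) :=
  (rankOneL (B := B) x).continuous

/-- `(F B) F⋆ ⊆ 𝒦(F)`. -/
lemma rankOne_act_mem {F : Submodule ℂ E} (hF : IsClosedTernary B F)
    (hT : IsTernaryHereditary B F) {x y : E} (hx : x ∈ F) (hy : y ∈ F) (b : B) :
    rankOne B (act y b) x ∈ compacts B F := by
  refine mem_of_forall_act hF hy (P := fun y => rankOne B (act y b) x ∈ compacts B F) ?_ ?_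
  · exact (isClosed_compacts F).preimage
      ((continuous_rankOne_left x).comp (continuous_act_left b))
  refine rangeIdeal_ind B (fun e => rankOne B (act (act y e) b) x ∈ compacts B F) ?_ ?_ ?_ ?_ ?_
  · exact (isClosed_compacts F).preimage
      ((continuous_rankOne_left x).comp ((continuous_act_left b).comp (continuous_act_right y)))
  · have : rankOne B (act (act y (0 : B)) b) x = 0 := by
      ext z; simp [act_zero_left, act_zero_right]
    rw [this]; exact zero_mem _
  · intro e e' he he'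
    have : rankOne B (act (act y (e + e')) b) x
        = rankOne B (act (act y e) b) x + rankOne B (act (act y e') b) x := by
      ext z; simp [act_add, add_act]
    rw [this]; exact add_mem he he'
  · intro t e he
    have : rankOne B (act (act y (t • e)) b) x = t • rankOne B (act (act y e) b) x := by
      ext z; simp [act_smul, smul_act]
    rw [this]; exact Submodule.smul_mem _ _ he
  · intro u hu v hv
    have : rankOne B (act (act y (ip u v : B)) b) x
        = rankOne B y (act x (ip (act v b) u : B)) := by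
      ext z
      rw [rankOne_apply, rankOne_apply, ip_act_left, star_ip, ip_act_right, act_mul, act_mul]
    rw [this]
    exact rankOne_mem_compacts hy (hT x hx _ u hu)

/-- Elements of `𝒦(F)` are `B`-linear. -/
lemma compacts_act {F : Submodule ℂ E} (x : E) (b : B) :
    ∀ k ∈ compacts B F, k (act x b) = act (k x) b := by
  refine compacts_ind (fun k => k (act x b) = act (k x) b) ?_ ?_ ?_ ?_ ?_
  · refine isClosed_eq (by fun_prop) ?_
    exact (continuous_act_left b).comp (by fun_prop)
  · simp [act_zero_left]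
  · intro k l hk hl; simp [hk, hl, add_act]
  · intro t k hk; simp [hk, smul_act]
  · intro p hp q hq
    rw [rankOne_apply, rankOne_apply, ip_act_right, act_mul]

/-- `F F⋆ 𝒦(E) F ⊆ F`. -/
lemma act_ip_compacts_mem {F : Submodule ℂ E} (hF : IsClosedTernary B F)
    (hT : IsTernaryHereditary B F) {v x y : E} (hv : v ∈ F) (hy : y ∈ F) :
    ∀ k ∈ compacts B (⊤ : Submodule ℂ E), act v (ip x (k y) : B) ∈ F := by
  refine compacts_ind (fun k => act v (ip x (k y) : B) ∈ F) ?_ ?_ ?_ ?_ ?_
  · refine hF.1.preimage ((continuous_act_right v).comp ((continuous_ip_right x).comp ?_))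
    fun_prop
  · simp [ip_zero_right, act_zero_right]
  · intro k l hk hl; simpa [ip_add_right, act_add] using add_mem hk hl
  · intro t k hk; simpa [ip_smul_right, act_smul] using Submodule.smul_mem _ t hk
  · intro p _ q _
    have : (ip x (rankOne B p q y) : B) = ip (act q (ip p x : B)) y := by
      rw [rankOne_apply, ip_act_right, ip_act_left, star_ip]
    rw [this]
    exact hT v hv _ y hy

/-- `F⋆ 𝒦(E) F ⊆ B_F`. -/
lemma ip_compacts_mem {F : Submodule ℂ E} (hF : IsClosedTernary B F)
    (hT : IsTernaryHereditary B F) {x y : E} (hx : x ∈ F) (hy : y ∈ F)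
    {k : E →L[ℂ] E} (hk : k ∈ compacts B (⊤ : Submodule ℂ E)) :
    (ip x (k y) : B) ∈ rangeIdeal B F := by
  refine mem_of_forall_act hF hx (P := fun x => (ip x (k y) : B) ∈ rangeIdeal B F) ?_ ?_
  · exact (isClosed_rangeIdeal F).preimage (continuous_ip_left _)
  intro e he
  rw [ip_act_left]
  have he' : star e ∈ rangeIdeal B F := star_mem_rangeIdeal e he
  generalize star e = e' at he'
  revert e'
  refine rangeIdeal_ind B (fun e => e * ip x (k y) ∈ rangeIdeal B F) ?_ ?_ ?_ ?_ ?_
  · exact (isClosed_rangeIdeal F).preimage (by fun_prop)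
  · simp
  · intro a b ha hb; rw [add_mul]; exact add_mem ha hb
  · intro t a ha; rw [smul_mul_assoc]; exact Submodule.smul_mem _ _ ha
  · intro u hu v hv
    rw [← ip_act_right]
    exact ip_mem_rangeIdeal hu (act_ip_compacts_mem hF hT hv hy k hk)

/-- `F⋆ E B_F ⊆ B_F`. -/
lemma ip_mul_mem {F : Submodule ℂ E} (hT : IsTernaryHereditary B F) {x : E} (hx : x ∈ F)
    (y : E) : ∀ b ∈ rangeIdeal B F, ip x y * b ∈ rangeIdeal B F := by
  refine rangeIdeal_ind B (fun b => ip x y * b ∈ rangeIdeal B F) ?_ ?_ ?_ ?_ ?_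
  · exact (isClosed_rangeIdeal F).preimage (by fun_prop)
  · simp
  · intro a b ha hb; rw [mul_add]; exact add_mem ha hb
  · intro t a ha; rw [mul_smul_comm]; exact Submodule.smul_mem _ _ ha
  · intro g hg h hh
    have : (ip x y * ip g h : B) = ip (act g (ip y x : B)) h := by
      rw [ip_act_left, star_ip]
    rw [this]
    exact ip_mem_rangeIdeal (hT g hg y x hx) hh

/-- `B_F E⋆ F ⊆ B_F`. -/
lemma mul_ip_mem {F : Submodule ℂ E} (hT : IsTernaryHereditary B F) {y : E} (hy : y ∈ F)
    (x : E) : ∀ b ∈ rangeIdeal B F, b * ip x y ∈ rangeIdeal B F := by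
  intro b hb
  have := star_mem_rangeIdeal _ (ip_mul_mem hT hy x (star b) (star_mem_rangeIdeal b hb))
  rwa [star_mul, star_star, star_ip] at this

/-- `𝒦(F) E B_F ⊆ F`. -/
lemma compacts_act_mem {F : Submodule ℂ E} (hF : IsClosedTernary B F)
    (hT : IsTernaryHereditary B F) (y : E) {b : B} (hb : b ∈ rangeIdeal B F) :
    ∀ k ∈ compacts B F, act (k y) b ∈ F := by
  refine compacts_ind (fun k => act (k y) b ∈ F) ?_ ?_ ?_ ?_ ?_
  · exact hF.1.preimage ((continuous_act_left b).comp (by fun_prop))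
  · simp [act_zero_left]
  · intro k l hk hl; simpa [add_act] using add_mem hk hl
  · intro t k hk; simpa [smul_act] using Submodule.smul_mem _ t hk
  · intro p hp q hq
    rw [rankOne_apply, ← act_mul]
    exact act_mul_mem hF hT hp _ hb

/-- `𝒦(F) 𝒦(E) F ⊆ F`. -/
lemma compacts_compacts_mem {F : Submodule ℂ E} (hF : IsClosedTernary B F)
    (hT : IsTernaryHereditary B F) {y : E} (hy : y ∈ F)
    {k : E →L[ℂ] E} (hk : k ∈ compacts B (⊤ : Submodule ℂ E)) :
    ∀ l ∈ compacts B F, l (k y) ∈ F := by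
  refine compacts_ind (fun l => l (k y) ∈ F) ?_ ?_ ?_ ?_ ?_
  · exact hF.1.preimage (by fun_prop)
  · simp
  · intro k l hk hl; simpa using add_mem hk hl
  · intro t k hk; simpa using Submodule.smul_mem _ t hk
  · intro p hp q hq
    exact act_ip_compacts_mem hF hT hp hy k hk

/-- `𝒦(F) E F⋆ ⊆ 𝒦(F)`. -/
lemma compacts_comp_rankOne_mem {F : Submodule ℂ E} (hF : IsClosedTernary B F)
    (hT : IsTernaryHereditary B F) (y : E) {x : E} (hx : x ∈ F) :
    ∀ k ∈ compacts B F, k.comp (rankOne B y x) ∈ compacts B F := by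
  refine compacts_ind (fun k => k.comp (rankOne B y x) ∈ compacts B F) ?_ ?_ ?_ ?_ ?_
  · exact (isClosed_compacts F).preimage (by fun_prop)
  · simp
  · intro k l hk hl; rw [ContinuousLinearMap.add_comp]; exact add_mem hk hl
  · intro t k hk; rw [ContinuousLinearMap.smul_comp]; exact Submodule.smul_mem _ t hk
  · intro p hp q hq
    have : (rankOne B p q).comp (rankOne B y x) = rankOne B (act p (ip q y : B)) x := by
      ext z
      rw [ContinuousLinearMap.comp_apply, rankOne_apply, rankOne_apply, rankOne_apply,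
        ip_act_right, act_mul]
    rw [this]
    exact rankOne_act_mem hF hT hx hp _

/-- `F E⋆ 𝒦(F) ⊆ 𝒦(F)`. -/
lemma rankOne_comp_compacts_mem {F : Submodule ℂ E}
    (hT : IsTernaryHereditary B F) (x : E) {y : E} (hy : y ∈ F) :
    ∀ k ∈ compacts B F, (rankOne B y x).comp k ∈ compacts B F := by
  refine compacts_ind (fun k => (rankOne B y x).comp k ∈ compacts B F) ?_ ?_ ?_ ?_ ?_
  · exact (isClosed_compacts F).preimage (by fun_prop)
  · simp
  · intro k l hk hl; rw [ContinuousLinearMap.comp_add]; exact add_mem hk hl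
  · intro t k hk; rw [ContinuousLinearMap.comp_smul]; exact Submodule.smul_mem _ t hk
  · intro p hp q hq
    have : (rankOne B y x).comp (rankOne B p q) = rankOne B (act y (ip x p : B)) q := by
      ext z
      rw [ContinuousLinearMap.comp_apply, rankOne_apply, rankOne_apply, rankOne_apply,
        ip_act_right, act_mul]
    rw [this]
    exact rankOne_mem_compacts (hT y hy x p hp) hq

/-- `𝒦(F) 𝒦(E) 𝒦(F) ⊆ 𝒦(F)`. -/
lemma compacts_comp_comp_mem {F : Submodule ℂ E} (hF : IsClosedTernary B F)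
    (hT : IsTernaryHereditary B F) {k : E →L[ℂ] E}
    (hk : k ∈ compacts B (⊤ : Submodule ℂ E)) {k₂ : E →L[ℂ] E} (hk₂ : k₂ ∈ compacts B F) :
    ∀ k₁ ∈ compacts B F, k₁.comp (k.comp k₂) ∈ compacts B F := by
  refine compacts_ind (fun l => l.comp (k.comp k₂) ∈ compacts B F) ?_ ?_ ?_ ?_ ?_
  · exact (isClosed_compacts F).preimage (by fun_prop)
  · simp
  · intro k l hk hl; rw [ContinuousLinearMap.add_comp]; exact add_mem hk hl
  · intro t k hk; rw [ContinuousLinearMap.smul_comp]; exact Submodule.smul_mem _ t hk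
  intro p hp q hq
  suffices h : ∀ l ∈ compacts B F, (rankOne B p q).comp (k.comp l) ∈ compacts B F from h k₂ hk₂
  refine compacts_ind (fun l => (rankOne B p q).comp (k.comp l) ∈ compacts B F) ?_ ?_ ?_ ?_ ?_
  · exact (isClosed_compacts F).preimage (by fun_prop)
  · simp
  · intro k l hk hl
    rw [ContinuousLinearMap.comp_add, ContinuousLinearMap.comp_add]; exact add_mem hk hl
  · intro t k hk
    rw [ContinuousLinearMap.comp_smul, ContinuousLinearMap.comp_smul]
    exact Submodule.smul_mem _ t hk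
  intro r hr s hs
  have : (rankOne B p q).comp (k.comp (rankOne B r s))
      = rankOne B (act p (ip q (k r) : B)) s := by
    ext z
    rw [ContinuousLinearMap.comp_apply, ContinuousLinearMap.comp_apply, rankOne_apply,
      rankOne_apply, rankOne_apply, compacts_act r _ k hk, ip_act_right, act_mul]
  rw [this]
  exact rankOne_mem_compacts (act_ip_compacts_mem hF hT hp hr k hk) hs

lemma norm_ipL (x : E) : ‖(ipL x : E →L[ℂ] B)‖ = ‖x‖ := by
  refine le_antisymm (LinearMap.mkContinuous_norm_le _ (norm_nonneg _) _) ?_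
  rcases eq_or_ne x 0 with rfl | hx
  · simp
  have hx' : 0 < ‖x‖ := norm_pos_iff.mpr hx
  have h := (ipL x : E →L[ℂ] B).le_opNorm x
  rw [ipL_apply, ← norm_sq_eq, pow_two] at h
  exact le_of_mul_le_mul_right h hx'

variable (B) in
/-- the set of functionals `⟨v, ·⟩`, `v ∈ F` -/
def dualSet (F : Submodule ℂ E) : Set (E →L[ℂ] B) := {φ | ∃ v ∈ F, φ = ipL v}

lemma isClosed_dualSet {F : Submodule ℂ E} (hF : IsClosed (F : Set E)) :
    IsClosed (dualSet B F) := by
  let J : E →+ (E →L[ℂ] B) :=
    { toFun := fun v => ipL v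
      map_zero' := by ext z; simp [ip_zero_left]
      map_add' := fun v w => by ext z; simp [ip_add_left] }
  have hJ : Isometry J := AddMonoidHomClass.isometry_of_norm J (fun x => norm_ipL x)
  have h := hJ.isClosedEmbedding.isClosedMap (F : Set E) hF
  have e : dualSet B F = J '' (F : Set E) := by
    refine Set.ext fun φ => ⟨?_, ?_⟩
    · rintro ⟨v, hv, rfl⟩; exact ⟨v, hv, rfl⟩
    · rintro ⟨v, hv, rfl⟩; exact ⟨v, hv, rfl⟩
  rw [e]
  exact h

lemma dualSet_add {F : Submodule ℂ E} {φ ψ : E →L[ℂ] B} (hφ : φ ∈ dualSet B F)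
    (hψ : ψ ∈ dualSet B F) : φ + ψ ∈ dualSet B F := by
  obtain ⟨v, hv, rfl⟩ := hφ
  obtain ⟨w, hw, rfl⟩ := hψ
  exact ⟨v + w, add_mem hv hw, by ext z; simp [ip_add_left]⟩

lemma dualSet_smul {F : Submodule ℂ E} (t : ℂ) {φ : E →L[ℂ] B} (hφ : φ ∈ dualSet B F) :
    t • φ ∈ dualSet B F := by
  obtain ⟨v, hv, rfl⟩ := hφ
  refine ⟨star t • v, Submodule.smul_mem _ _ hv, ?_⟩
  ext z
  simp only [smul_apply, ipL_apply, ip_smul_left, star_star]

lemma dualSet_zero {F : Submodule ℂ E} : (0 : E →L[ℂ] B) ∈ dualSet B F :=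
  ⟨0, zero_mem _, by ext z; simp [ip_zero_left]⟩

/-- `B_F E⋆ 𝒦(F) ⊆ F⋆`. -/
lemma mul_ip_compacts_mem {F : Submodule ℂ E} (hF : IsClosedTernary B F)
    (hT : IsTernaryHereditary B F) {b : B} (hb : b ∈ rangeIdeal B F) (x : E) :
    ∀ k ∈ compacts B F, (ContinuousLinearMap.mul ℂ B b).comp ((ipL x).comp k) ∈ dualSet B F := by
  refine compacts_ind
    (fun k => (ContinuousLinearMap.mul ℂ B b).comp ((ipL x).comp k) ∈ dualSet B F) ?_ ?_ ?_ ?_ ?_
  · exact (isClosed_dualSet hF.1).preimage (by fun_prop)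
  · simpa using dualSet_zero
  · intro k l hk hl
    rw [ContinuousLinearMap.comp_add, ContinuousLinearMap.comp_add]; exact dualSet_add hk hl
  · intro t k hk
    rw [ContinuousLinearMap.comp_smul, ContinuousLinearMap.comp_smul]
    exact dualSet_smul t hk
  intro p hp q hq
  refine ⟨act q (ip p x * star b), act_mul_mem hF hT hq _ (star_mem_rangeIdeal b hb), ?_⟩
  ext z
  simp only [ContinuousLinearMap.comp_apply, ContinuousLinearMap.mul_apply', ipL_apply,
    rankOne_apply, ip_act_right, ip_act_left, star_mul, star_star, star_ip, mul_assoc]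

/-- `F⋆ 𝒦(E) 𝒦(F) ⊆ F⋆`. -/
lemma ip_compacts_comp_mem {F : Submodule ℂ E} (hF : IsClosedTernary B F)
    (hT : IsTernaryHereditary B F) {x : E} (hx : x ∈ F) {k : E →L[ℂ] E}
    (hk : k ∈ compacts B (⊤ : Submodule ℂ E)) :
    ∀ l ∈ compacts B F, (ipL x : E →L[ℂ] B).comp (k.comp l) ∈ dualSet B F := by
  refine compacts_ind
    (fun l => (ipL x : E →L[ℂ] B).comp (k.comp l) ∈ dualSet B F) ?_ ?_ ?_ ?_ ?_
  · exact (isClosed_dualSet hF.1).preimage (by fun_prop)
  · simpa using dualSet_zero
  · intro k l hk hl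
    rw [ContinuousLinearMap.comp_add, ContinuousLinearMap.comp_add]; exact dualSet_add hk hl
  · intro t k hk
    rw [ContinuousLinearMap.comp_smul, ContinuousLinearMap.comp_smul]
    exact dualSet_smul t hk
  intro p hp q hq
  refine ⟨act q (ip (k p) x : B), hT q hq _ x hx, ?_⟩
  ext z
  simp only [ContinuousLinearMap.comp_apply, ipL_apply, rankOne_apply,
    compacts_act p _ k hk, ip_act_right, ip_act_left, star_ip]

end proofs

/-- **Ternary hereditary closed ternary subspaces are linking hereditary.**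
For every C⋆-algebra `B`, every (not necessarily full) right Hilbert `B`-module `E` and every
closed ternary subspace `F` of `E`: if `F ⟨E, F⟩ ⊆ F`, then `𝓛_F 𝓛_E 𝓛_F ⊆ 𝓛_F`. -/
theorem main (B : Type*) [NonUnitalCStarAlgebra B] [PartialOrder B] [StarOrderedRing B]
    (E : Type*) [NormedAddCommGroup E] [NormedSpace ℂ E] [CompleteSpace E]
    [RightHilbertModule B E] (F : Submodule ℂ E) (hF : IsClosedTernary B F)
    (hT : IsTernaryHereditary B F) : IsLinkingHereditary B F := by
  rintro S ⟨b₁, hb₁, x₁, hx₁, y₁, hy₁, k₁, hk₁, hS⟩ R ⟨b, hb, x, -, y, -, k, hk, hR⟩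
    T ⟨b₂, hb₂, x₂, hx₂, y₂, hy₂, k₂, hk₂, hT'⟩
  obtain ⟨v₃, hv₃, hv₃'⟩ := mul_ip_compacts_mem hF hT hb₁ x k₂ hk₂
  obtain ⟨v₄, hv₄, hv₄'⟩ := ip_compacts_comp_mem hF hT hx₁ hk k₂ hk₂
  have e₃ : ∀ z, b₁ * ip x (k₂ z) = ip v₃ z := fun z => by
    have := DFunLike.congr_fun hv₃' z
    simpa using this
  have e₄ : ∀ z, (ip x₁ (k (k₂ z)) : B) = ip v₄ z := fun z => by
    have := DFunLike.congr_fun hv₄' z
    simpa using this
  refine ⟨b₁ * b * b₂ + b₁ * ip x y₂ + ip x₁ y * b₂ + ip x₁ (k y₂), ?_,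
    act x₂ (star b * star b₁) + act x₂ (ip y x₁ : B) + v₃ + v₄, ?_,
    act y₁ (b * b₂) + act (k₁ y) b₂ + act y₁ (ip x y₂ : B) + k₁ (k y₂), ?_,
    rankOne B (act y₁ b) x₂ + k₁.comp (rankOne B y x₂) + (rankOne B y₁ x).comp k₂
      + k₁.comp (k.comp k₂), ?_, ?_⟩
  · exact add_mem (add_mem (add_mem (mul_mul_mem hT hb₁ hb₂) (mul_ip_mem hT hy₂ x b₁ hb₁))
      (ip_mul_mem hT hx₁ y b₂ hb₂)) (ip_compacts_mem hF hT hx₁ hy₂ hk)
  · exact add_mem (add_mem (add_mem
      (act_mul_mem hF hT hx₂ _ (star_mem_rangeIdeal b₁ hb₁)) (hT x₂ hx₂ y x₁ hx₁)) hv₃) hv₄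
  · exact add_mem (add_mem (add_mem (act_mul_mem hF hT hy₁ b hb₂)
      (compacts_act_mem hF hT y hb₂ k₁ hk₁)) (hT y₁ hy₁ x y₂ hy₂))
      (compacts_compacts_mem hF hT hy₂ hk k₁ hk₁)
  · exact add_mem (add_mem (add_mem (rankOne_act_mem hF hT hx₂ hy₁ b)
      (compacts_comp_rankOne_mem hF hT y hx₂ k₁ hk₁))
      (rankOne_comp_compacts_mem hT x hy₁ k₂ hk₂)) (compacts_comp_comp_mem hF hT hk hk₂ k₁ hk₁)
  · intro p
    obtain ⟨hT1, hT2⟩ := hT' p
    obtain ⟨hR1, hR2⟩ := hR (T p)
    obtain ⟨hS1, hS2⟩ := hS (R (T p))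
    constructor
    · rw [Function.comp_apply, Function.comp_apply, hS1, hR1, hR2, hT1, hT2]
      simp only [ip_add_left, ip_act_left, ip_add_right, ip_act_right, map_add, mul_add, add_mul,
        star_star, star_ip, act_add, compacts_act _ _ k hk, act_mul, ← e₃, ← e₄,
        mul_assoc]
      abel
    · rw [Function.comp_apply, Function.comp_apply, hS2, hR1, hR2, hT1, hT2]
      simp only [add_apply, ContinuousLinearMap.comp_apply, rankOne_apply,
        ip_add_right, ip_act_right, map_add, mul_add, act_add, add_act,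
        compacts_act _ _ k hk, compacts_act _ _ k₁ hk₁, act_mul]
      abel

end Pool.Agent.Work.MP_7e9539_an
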